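import Pool.Agent.Run7.h163.PV.SM
import Pool.Agent.Run7.h874.PV.SMH
import Pool.Agent.Run7.h393.PV.SMB

/-!
# SMH and SMB from the corrected second moment bound

The proofs are those of helper874 (SMH) and helper393 (SMB), with `t_SM1` in the place of the
hypothesis `S_SM` (which is false at `Y = 1`).
-/

set_option autoImplicit false

namespace Pool.Agent.Run7.h163.PV.HB

open Finset Complex Pool.Agent.Run7.h343.PV Pool.Agent.Run7.h874.PV

/-- SMH, from the corrected SM -/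
theorem t_SMH1 (hOFF : S_OFF2) (hDIAG : S_DIAG) : S_SMH := by
  have hSM := t_SM1
  obtain ⟨CD, hCD, hD⟩ := hDIAG
  intro δ hδ
  refine ⟨max 12 ⌈1 / δ⌉₊, ?_⟩
  intro J hJ
  have hJ12 : 12 ≤ J := (le_max_left _ _).trans hJ
  have hJδ : 1 ≤ δ * J := by
    have h1 : (⌈1 / δ⌉₊ : ℝ) ≤ J := by exact_mod_cast (le_max_right _ _).trans hJ
    have h2 := (Nat.le_ceil (1 / δ)).trans h1
    rw [div_le_iff₀ hδ] at h2
    linarith
  have hJr : (12:ℝ) ≤ J := by exact_mod_cast hJ12
  refine ⟨CD * (50 * (10 * J + 3) + 1) + (320 + 160 * (3 + 20 * J)), by positivity, 80 * J, ?_⟩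
  intro p ν m hmν _ χ h i hp hp2 hν h2m hPq hχ hi1 hi2 hh hLip hlo hhi
  -- the parameters
  have hp3 : 3 ≤ p := by
    have := hp.two_le
    omega
  have hp3r : (3:ℝ) ≤ p := by exact_mod_cast hp3
  have hp0 : (0:ℝ) < p := by linarith
  have hlogp : 1 ≤ Real.log p := by
    rw [Real.le_log_iff_exp_le hp0]
    have := Real.exp_one_lt_d9
    linarith
  have hJ0 : (0:ℝ) < 20 * J := by positivity
  set U := UU J p ν with hUdef
  have hlogq : Real.log ((p:ℝ) ^ ν) = ν * Real.log p := by rw [Real.log_pow]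
  have h20 : 20 * J * U = ν * Real.log p := by
    rw [hUdef]; unfold UU; rw [hlogq]; field_simp
  have hνr : (80:ℝ) * J ≤ ν := by exact_mod_cast hν
  have hU4 : 4 * Real.log p ≤ U := by
    have h1 : 20 * J * (4 * Real.log p) ≤ 20 * J * U := by
      rw [h20]
      have := mul_le_mul_of_nonneg_right hνr (show 0 ≤ Real.log p by linarith)
      linarith
    exact le_of_mul_le_mul_left h1 hJ0
  have hU : 4 ≤ U := by linarith
  have hU0 : 0 < U := by linarith
  have hq : (p:ℝ) ^ ν = Real.exp (20 * J * U) := by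
    rw [h20, ← hlogq, Real.exp_log (by positivity)]
  have hpU : (p:ℝ) ≤ Real.exp U := by
    rw [← Real.exp_log hp0]
    apply Real.exp_le_exp.mpr
    linarith
  have hP : Real.exp ((20/3 + 20 * δ) * J * U) ≤ (p:ℝ) ^ m := by
    refine le_trans (le_of_eq ?_) hPq
    rw [hq, ← Real.exp_mul]
    congr 1; ring
  have hν3 : ν ≤ 3 * m := by
    have h1 := Real.log_le_log (Real.exp_pos _) hP
    rw [Real.log_exp, Real.log_pow] at h1
    have h2 : (20/3 + 20 * δ) * J * U = (1/3 + δ) * (20 * J * U) := by ring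
    rw [h2, h20] at h1
    have h3 : (1/3 : ℝ) * (ν * Real.log p) ≤ m * Real.log p := by
      have : 0 ≤ δ * (ν * Real.log p) := by positivity
      linarith
    have h4 : (ν:ℝ) * Real.log p ≤ (3 * m) * Real.log p := by linarith
    have h5 := le_of_mul_le_mul_right h4 (by linarith : 0 < Real.log p)
    exact_mod_cast h5
  have hm1 : 1 ≤ m := by omega
  set k : ℝ := (J:ℝ) + i with hk
  have hi1r : (1:ℝ) ≤ i := by exact_mod_cast hi1
  have hi2r : (i:ℝ) ≤ 9 * J + 1 := by exact_mod_cast hi2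
  have hkle : k ≤ 10 * J + 1 := by rw [hk]; linarith
  have hkge : 13 ≤ k := by rw [hk]; linarith
  set x := Real.exp ((k - 1) * U) with hx
  set X := Real.exp ((k + 1) * U) with hX
  have hlogx : Real.log x = (k - 1) * U := Real.log_exp _
  have hlogX : Real.log X = (k + 1) * U := Real.log_exp _
  have hY : YY J p ν = Real.exp U := rfl
  have hN : Real.exp ((10 * J + 2) * U) ≤ (NN J p ν : ℝ) := Nat.le_ceil _
  have hXN : X ≤ (NN J p ν : ℝ) := by
    refine le_trans (Real.exp_le_exp.mpr ?_) hN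
    apply mul_le_mul_of_nonneg_right _ hU0.le
    linarith
  have h1x : 1 < x := by
    rw [hx]
    apply Real.one_lt_exp_iff.mpr
    have : 0 < k - 1 := by linarith
    positivity
  have hxX : x ≤ X := by
    apply Real.exp_le_exp.mpr
    apply mul_le_mul_of_nonneg_right _ hU0.le
    linarith
  have hLip' : ∀ s t, |h s - h t| ≤ 4 / U * |s - t| := by
    intro s t
    refine (hLip s t).trans (le_of_eq ?_)
    ring
  have hlo' : ∀ t, t ≤ Real.log x → h t = 0 := by
    intro t ht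
    apply hlo t
    rw [hlogx, hk] at ht
    exact ht
  have hhi' : ∀ t, Real.log X ≤ t → h t = 0 := by
    intro t ht
    apply hhi t
    rw [hlogX, hk] at ht
    exact ht
  have hZX : Real.exp U * X < (p:ℝ) ^ (ν - 1) := by
    have h1 : (p:ℝ) ^ (ν - 1) * p = (p:ℝ) ^ ν := by
      rw [← pow_succ]
      congr 1
      omega
    have h2 : Real.exp U * X * p < (p:ℝ) ^ (ν - 1) * p := by
      rw [h1, hq]
      calc Real.exp U * X * p ≤ Real.exp U * X * Real.exp U :=
            mul_le_mul_of_nonneg_left hpU (by positivity)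
        _ = Real.exp ((k + 3) * U) := by
            rw [hX, ← Real.exp_add, ← Real.exp_add]; congr 1; ring
        _ < Real.exp (20 * J * U) := by
            apply Real.exp_lt_exp.mpr
            apply mul_lt_mul_of_pos_right _ hU0
            linarith
    exact lt_of_mul_lt_mul_right h2 hp0.le
  set E : ℝ := 2 * (Real.exp U * X / (p : ℝ) ^ m) * (10 * Real.sqrt p * Real.exp U * (1 + 4 / U) *
      (X / x ^ 2) * (2 * X * Real.sqrt (Real.exp U * X / (p : ℝ) ^ ν) +
        Real.sqrt ((p : ℝ) ^ ν / (p : ℝ) ^ m) * (3 + Real.log ((p : ℝ) ^ ν)))) with hE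
  have hlog0 : 0 ≤ Real.log ((p:ℝ) ^ ν) := by rw [hlogq]; positivity
  have hE0 : 0 ≤ E := by rw [hE]; positivity
  have hE4 : 4 * Real.exp U * E ≤ 320 + 160 * (3 + 20 * J) :=
    numerics hJr hJδ hU hkle hq hP hpU
  -- second moment
  have hsm := hSM p ν m hmν χ (YY J p ν) E h (NN J p ν) hp hm1
    (by rw [hY]; exact Real.one_lt_exp_iff.mpr hU0) hE0
    (fun t ht => by
      apply hhi' t
      have h1 := Real.log_le_log (Real.exp_pos _) hXN
      exact h1.trans ht.le)
    (fun l₁ l₂ a1 a2 a3 a4 a5 a6 => by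
      rw [hY] at a3 a4
      exact hOFF p ν m χ x X (4 / U) (Real.exp U) h l₁ l₂ (NN J p ν) hp hp2 hm1 hν3 hχ h1x hxX hXN
        (by positivity) hh hLip' hlo' hhi' a1 a2 a3 a4 a5 a6 hZX)
  -- diagonal
  have hdiag := hD (Real.exp U) x ((k + 1) * U) (U / 4) h
    (by
      have h1 := Real.add_one_le_exp U
      linarith)
    (by
      rw [← Real.exp_nat_mul, hx]
      apply Real.exp_le_exp.mpr
      push_cast
      apply mul_le_mul_of_nonneg_right _ hU0.le
      linarith)
    (by linarith) hh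
    (fun s t => by
      refine (hLip s t).trans (le_of_eq ?_)
      field_simp)
    (fun t ht => hhi' t (by rw [hlogX]; exact ht)) (⌊YY J p ν⌋₊ * NN J p ν)
  have hzero : ∀ n : ℕ, 1 ≤ n → (n:ℝ) ≤ x → DD (Real.exp U) h n = 0 := by
    intro n hn hnx
    unfold DD
    apply Finset.sum_eq_zero
    intro l hl
    have hl0 : 0 < l := Nat.pos_of_mem_divisors hl
    have hl1 : (1:ℝ) ≤ l := by exact_mod_cast hl0
    have hn0 : (0:ℝ) < n := by exact_mod_cast hn
    have h1 : Real.log ((n:ℝ) / l) ≤ Real.log x := by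
      apply Real.log_le_log (by positivity)
      refine le_trans ?_ hnx
      exact div_le_self hn0.le hl1
    rw [hlo' _ h1, mul_zero]
  have hsum : ∑ n ∈ Icc 1 (⌊YY J p ν⌋₊ * NN J p ν), DD (YY J p ν) h n ^ 2 / n
      = ∑ n ∈ (Icc 1 (⌊YY J p ν⌋₊ * NN J p ν)).filter (fun n : ℕ => x < (n:ℝ)),
        DD (Real.exp U) h n ^ 2 / n := by
    rw [Finset.sum_filter, hY]
    refine Finset.sum_congr rfl fun n hn => ?_
    split_ifs with hc
    · rfl
    · rw [hzero n (Finset.mem_Icc.mp hn).1 (not_lt.mp hc)]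
      simp
  rw [hsum] at hsm
  refine hsm.trans ?_
  rw [mul_comm]
  apply mul_le_mul_of_nonneg_right _ (by positivity)
  have hfin : CD * ((|(k + 1) * U| + Real.log (Real.exp U)) *
      (1 / Real.log (Real.exp U) + 1 / (U / 4)) ^ 2 * (1 + Real.log (Real.exp U)) + 1) ≤
      CD * (50 * (10 * J + 3) + 1) := by
    apply mul_le_mul_of_nonneg_left _ hCD.le
    rw [Real.log_exp, abs_of_nonneg (by positivity)]
    have e : ((k + 1) * U + U) * (1 / U + 1 / (U / 4)) ^ 2 * (1 + U)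
        = 25 * (k + 2) * ((1 + U) / U) := by
      field_simp; ring
    rw [e]
    have h1 : (1 + U) / U ≤ 2 := by rw [div_le_iff₀ hU0]; linarith
    have h2 : 25 * (k + 2) * ((1 + U) / U) ≤ 25 * (k + 2) * 2 :=
      mul_le_mul_of_nonneg_left h1 (by linarith)
    linarith
  have := hdiag.trans hfin
  rw [hY] at this ⊢
  linarith


end Pool.Agent.Run7.h163.PV.HB

namespace Pool.Agent.Run7.h163.PV.BB

open Finset Complex Pool.Agent.Run7.h343.PV Pool.Agent.Run7.h393.PV

/-- SMB, from the corrected SM -/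
theorem t_SMB1 (hD : S_DIAG) (hB : S_BOT) : S_SMB := by
  have hSM := t_SM1
  intro J hJ
  obtain ⟨C, hC, H⟩ := diag_bottom hD hB J hJ
  refine ⟨C, hC, 160 * J, ?_⟩
  intro p ν m hmν hne χ h hp hν hm hpm hh1 hlip hbot hsup
  have hU4 : 4 ≤ UU J p ν := UU_lb hJ hp hν
  have hq := q_eq ν hJ hp
  have hJ0 : (3 : ℝ) ≤ J := by exact_mod_cast hJ
  have hY1 : 1 < YY J p ν := by
    unfold YY
    have := Real.add_one_le_exp (UU J p ν)
    linarith
  have hN : ∀ t, Real.log (NN J p ν) < t → h t = 0 := by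
    intro t ht
    apply hsup
    have h1 : Real.exp ((10 * J + 2) * UU J p ν) ≤ (NN J p ν : ℝ) := Nat.le_ceil _
    have h2 : (10 * J + 2) * UU J p ν ≤ Real.log (NN J p ν) := by
      rw [Real.le_log_iff_exp_le (lt_of_lt_of_le (Real.exp_pos _) h1)]
      exact h1
    nlinarith
  have hOD : ∀ l₁ l₂ : ℕ, 1 ≤ l₁ → 1 ≤ l₂ → (l₁ : ℝ) ≤ YY J p ν → (l₂ : ℝ) ≤ YY J p ν →
      l₁.Coprime p → l₂.Coprime p → ‖OD χ m h (NN J p ν) l₁ l₂‖ ≤ 0 := by
    intro l₁ l₂ a b c d _ _
    rw [Pool.Agent.Run7.h393.PV.OD_zero χ h (NN J p ν) l₁ l₂ ((J + 1) * UU J p ν) (YY J p ν) hsup a b c d, norm_zero]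
    refine le_trans ?_ hpm
    unfold YY
    rw [← Real.exp_add, hq, ← Real.exp_mul]
    apply Real.exp_le_exp.2
    nlinarith
  have h1 := hSM p ν m hmν χ (YY J p ν) 0 h (NN J p ν) hp hm hY1 le_rfl hN hOD
  refine h1.trans ?_
  have h2 := H p ν h hp hU4 hh1 hlip hbot hsup (⌊YY J p ν⌋₊ * NN J p ν)
  have hp0 : (0 : ℝ) ≤ (p : ℝ) ^ m := by positivity
  calc (p : ℝ) ^ m * (∑ n ∈ Icc 1 (⌊YY J p ν⌋₊ * NN J p ν), DD (YY J p ν) h n ^ 2 / n +
        4 * YY J p ν * 0) ≤ (p : ℝ) ^ m * (C + 4 * YY J p ν * 0) := by gcongr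
    _ = C * (p : ℝ) ^ m := by ring


end Pool.Agent.Run7.h163.PV.BB
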