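import Pool.Agent.Run7.h163.PV.SM1

/-!
# The piece SM of project PV: the second moment over a coset of characters
-/

set_option autoImplicit false

namespace Pool.Agent.Run7.h163.PV

open Finset Complex Pool.Agent.Run7.h343.PV

/-- orthogonality over all characters mod `d`, for sums over an arbitrary index set -/
lemma orthG {ι : Type*} {d : ℕ} [NeZero d] (s : Finset ι) (f : ι → ZMod d) (a : ι → ℂ)
    (ha : ∀ i ∈ s, ¬ IsUnit (f i) → a i = 0) :
    ((∑ θ : DirichletCharacter ℂ d, ‖∑ i ∈ s, θ (f i) * a i‖ ^ 2 : ℝ) : ℂ) =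
      (Nat.totient d : ℂ) * ∑ i ∈ s, ∑ j ∈ s,
        if f i = f j then a i * (starRingEnd ℂ) (a j) else 0 := by
  classical
  push_cast
  simp_rw [← Complex.mul_conj', map_sum, sum_mul_sum, map_mul]
  rw [sum_comm, mul_sum]
  refine sum_congr rfl fun n hn => ?_
  rw [sum_comm, mul_sum]
  refine sum_congr rfl fun k hk => ?_
  by_cases hnu : IsUnit (f n)
  · by_cases hku : IsUnit (f k)
    · have h1 := DirichletCharacter.sum_char_inv_mul_char_eq ℂ hku (f n)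
      have e1 : ∀ θ : DirichletCharacter ℂ d, θ (f n) * a n *
          ((starRingEnd ℂ) (θ (f k)) * (starRingEnd ℂ) (a k)) =
          (θ ((f k)⁻¹) * θ (f n)) * (a n * (starRingEnd ℂ) (a k)) := by
        intro θ
        have e2 : (starRingEnd ℂ) (θ (f k)) = θ ((f k)⁻¹) := by
          have h3 := MulChar.star_apply' θ (f k)
          rw [starRingEnd_apply, h3, MulChar.inv_apply]
          obtain ⟨u, hu⟩ := hku
          rw [← hu, Ring.inverse_unit, ZMod.inv_coe_unit]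
        rw [e2]
        ring
      simp_rw [e1]
      rw [← sum_mul, h1]
      by_cases hnk : f k = f n
      · rw [if_pos hnk, if_pos hnk.symm]
      · rw [if_neg hnk, if_neg (fun h => hnk h.symm), zero_mul, mul_zero]
    · rw [ha k hk hku]
      simp
  · rw [ha n hn hnu]
    simp

/-- the diagonal in terms of the values of `π` -/
lemma diagG {ι : Type*} (s : Finset ι) (K : Finset ℕ) (π : ι → ℕ) (hπ : ∀ i ∈ s, π i ∈ K) (a : ι → ℂ) :
    ∑ i ∈ s, ∑ j ∈ s, (if π i = π j then a i * (starRingEnd ℂ) (a j) else 0) =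
      ∑ k ∈ K, (∑ i ∈ s, if π i = k then a i else 0) *
        (starRingEnd ℂ) (∑ i ∈ s, if π i = k then a i else 0) := by
  classical
  simp_rw [map_sum, sum_mul_sum]
  rw [sum_comm (s := K)]
  refine sum_congr rfl fun i hi => ?_
  rw [sum_comm (s := K)]
  refine sum_congr rfl fun j hj => ?_
  rw [sum_eq_single (π i)]
  · rw [if_pos rfl]
    by_cases h : π i = π j
    · rw [if_pos h, if_pos h.symm]
    · rw [if_neg h, if_neg (fun h' => h h'.symm)]
      simp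
  · intro k _ hk
    rw [if_neg (fun h => hk h.symm), zero_mul]
  · intro h
    exact absurd (hπ i hi) h

lemma sum_inv_sqrt (L : ℕ) : ∑ l ∈ Icc 1 L, 1 / Real.sqrt (l : ℝ) ≤ 2 * Real.sqrt L := by
  induction L with
  | zero => simp
  | succ n ih =>
    rw [sum_Icc_succ_top (by omega)]
    have h1 : 0 < Real.sqrt ((n : ℝ) + 1) := Real.sqrt_pos.2 (by positivity)
    have h2 : Real.sqrt (n : ℝ) ≤ Real.sqrt ((n : ℝ) + 1) := Real.sqrt_le_sqrt (by linarith)
    have h0 : 0 ≤ Real.sqrt (n : ℝ) := Real.sqrt_nonneg _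
    have h3 : Real.sqrt (n : ℝ) ^ 2 = n := Real.sq_sqrt (by positivity)
    have h4 : Real.sqrt ((n : ℝ) + 1) ^ 2 = n + 1 := Real.sq_sqrt (by positivity)
    push_cast
    have h5 : 1 / Real.sqrt ((n : ℝ) + 1) ≤ 2 * (Real.sqrt ((n : ℝ) + 1) - Real.sqrt (n : ℝ)) := by
      rw [div_le_iff₀ h1]
      nlinarith
    linarith

lemma PL_zero {Y : ℝ} (hY : 1 < Y) {l : ℕ} (hl : Y < l) : PL Y l = 0 := by
  unfold PL
  have h1 : 0 < Real.log Y := Real.log_pos hY
  have h2 : Real.log Y < Real.log l := Real.log_lt_log (by linarith) hl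
  have h3 : 1 < Real.log l / Real.log Y := by rwa [one_lt_div h1]
  exact max_eq_left (by linarith)

lemma PL_nonneg (Y : ℝ) (l : ℕ) : 0 ≤ PL Y l := le_max_left _ _

lemma PL_le_one {Y : ℝ} (hY : 1 < Y) (l : ℕ) : PL Y l ≤ 1 := by
  unfold PL
  have h1 : 0 < Real.log Y := Real.log_pos hY
  have h2 : 0 ≤ Real.log (l : ℝ) := Real.log_natCast_nonneg l
  have h3 : 0 ≤ Real.log l / Real.log Y := by positivity
  exact max_le (by norm_num) (by linarith)

lemma mu_abs (l : ℕ) : |mu l| ≤ 1 := by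
  unfold mu
  have := ArithmeticFunction.abs_moebius_le_one (n := l)
  exact_mod_cast this

/-- the sum over the factorisations `k = l n` is `DD` -/
lemma fac {Y : ℝ} (hY : 1 < Y) (h : ℝ → ℝ) (N : ℕ) (hh : ∀ t, Real.log N < t → h t = 0) {k : ℕ}
    (hk : k ∈ Icc 1 (⌊Y⌋₊ * N)) :
    ∑ l ∈ Icc 1 ⌊Y⌋₊, ∑ n ∈ Icc 1 N, (if l * n = k then
      mu l * PL Y l / Real.sqrt l * (h (Real.log n) / Real.sqrt n) else 0) =
      DD Y h k / Real.sqrt k := by
  classical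
  rw [mem_Icc] at hk
  have hk0 : k ≠ 0 := by omega
  have hN : 1 ≤ N := by
    rcases Nat.eq_zero_or_pos N with h0 | h0
    · subst h0; omega
    · exact h0
  have h1 : ∀ l ∈ Icc 1 ⌊Y⌋₊, ∑ n ∈ Icc 1 N, (if l * n = k then
      mu l * PL Y l / Real.sqrt l * (h (Real.log n) / Real.sqrt n) else 0) =
      if l ∣ k then mu l * PL Y l * h (Real.log ((k : ℝ) / l)) / Real.sqrt k else 0 := by
    intro l hl
    rw [mem_Icc] at hl
    have hl0 : (0 : ℝ) < l := by exact_mod_cast (by omega : 0 < l)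
    by_cases hd : l ∣ k
    · obtain ⟨c, rfl⟩ := hd
      rw [if_pos (Dvd.intro c rfl)]
      have hc : 1 ≤ c := by
        rcases Nat.eq_zero_or_pos c with h0 | h0
        · subst h0; simp at hk0
        · exact h0
      have hc0 : (0 : ℝ) < c := by exact_mod_cast (by omega : 0 < c)
      have e1 : (((l * c : ℕ) : ℝ)) / l = c := by
        push_cast
        field_simp
      have e2 : Real.sqrt ((l * c : ℕ) : ℝ) = Real.sqrt l * Real.sqrt c := by
        push_cast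
        rw [Real.sqrt_mul hl0.le]
      rw [e1, e2]
      have e3 : ∀ n ∈ Icc 1 N, (if l * n = l * c then
          mu l * PL Y l / Real.sqrt l * (h (Real.log n) / Real.sqrt n) else 0) =
          if n = c then mu l * PL Y l / Real.sqrt l * (h (Real.log n) / Real.sqrt n) else 0 := by
        intro n _
        have : (l * n = l * c) ↔ n = c := by
          constructor
          · intro h'; exact Nat.eq_of_mul_eq_mul_left (by omega) h'
          · intro h'; rw [h']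
        simp only [this]
      rw [sum_congr rfl e3, sum_ite_eq']
      by_cases hcN : c ≤ N
      · rw [if_pos (mem_Icc.2 ⟨hc, hcN⟩)]
        rw [div_mul_div_comm]
      · rw [if_neg (fun h' => hcN (mem_Icc.1 h').2)]
        have : h (Real.log c) = 0 := by
          apply hh
          apply Real.log_lt_log (by exact_mod_cast (by omega : 0 < N))
          exact_mod_cast (by omega : N < c)
        rw [this]
        simp
    · rw [if_neg hd]
      apply sum_eq_zero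
      intro n _
      rw [if_neg]
      intro h'
      exact hd ⟨n, h'.symm⟩
  rw [sum_congr rfl h1, ← sum_filter, DD, sum_div]
  apply sum_subset
  · intro l hl
    rw [mem_filter] at hl
    exact Nat.mem_divisors.2 ⟨hl.2, hk0⟩
  · intro l hl hl'
    have h2 := Nat.mem_divisors.1 hl
    have h3 : 0 < l := Nat.pos_of_mem_divisors hl
    have h4 : ⌊Y⌋₊ < l := by
      by_contra h5
      exact hl' (mem_filter.2 ⟨mem_Icc.2 ⟨h3, by omega⟩, h2.1⟩)
    have h6 : Y < l := Nat.lt_of_floor_lt h4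
    rw [PL_zero hY h6]
    simp


lemma chi_zero_of {p ν : ℕ} (χ : DirichletCharacter ℂ (p ^ ν)) {n : ℕ} (hn : ¬ n.Coprime (p ^ ν)) :
    χ ((n : ℕ) : ZMod (p ^ ν)) = 0 := by
  apply χ.map_nonunit
  rwa [ZMod.isUnit_iff_coprime]

lemma OD_zero {p ν m : ℕ} (hν : 1 ≤ ν) (χ : DirichletCharacter ℂ (p ^ ν)) (h : ℝ → ℝ) (N l₁ l₂ : ℕ)
    (hl : ¬ (l₁.Coprime p ∧ l₂.Coprime p)) : OD χ m h N l₁ l₂ = 0 := by
  have key : ∀ l n : ℕ, ¬ l.Coprime p → χ ((l * n : ℕ) : ZMod (p ^ ν)) = 0 := by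
    intro l n hl
    apply chi_zero_of
    intro h1
    apply hl
    have h2 : l.Coprime (p ^ ν) := Nat.Coprime.coprime_mul_right h1
    exact (Nat.coprime_pow_right_iff (by omega) _ _).1 h2
  unfold OD
  refine sum_eq_zero fun n₁ _ => sum_eq_zero fun n₂ _ => ?_
  split_ifs with hc
  · rcases not_and_or.1 hl with h1 | h1
    · rw [key l₁ n₁ h1, zero_mul, zero_mul]
    · rw [key l₂ n₂ h1, map_zero, mul_zero, zero_mul]
  · rfl

theorem t_SM1 : S_SM1 := by
  intro p ν m hmν _ χ Y E h N hp hm hY hE hh hOD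
  classical
  let c : ℕ → ℝ := fun l => mu l * PL Y l / Real.sqrt l
  let g : ℕ → ℝ := fun n => h (Real.log n) / Real.sqrt n
  let S := Icc 1 ⌊Y⌋₊ ×ˢ Icc 1 N
  let π : ℕ × ℕ → ℕ := fun i => i.1 * i.2
  let a : ℕ × ℕ → ℂ := fun i => χ ((i.1 * i.2 : ℕ) : ZMod (p ^ ν)) * ((c i.1 * g i.2 : ℝ) : ℂ)
  have hMA : ∀ θ : DirichletCharacter ℂ (p ^ m), Mol Y (tw hmν χ θ) * AA N h (tw hmν χ θ) =
      ∑ i ∈ S, θ ((π i : ℕ) : ZMod (p ^ m)) * a i := by
    intro θ
    have ht : ∀ n : ℕ, tw hmν χ θ (n : ZMod (p ^ ν)) =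
        χ (n : ZMod (p ^ ν)) * θ (n : ZMod (p ^ m)) := by
      intro n
      have := tw_apply hmν χ θ (n : ℤ)
      simpa using this
    unfold Mol AA
    rw [sum_mul_sum, ← sum_product']
    refine sum_congr rfl fun i hi => ?_
    simp only [a, π, c, g]
    rw [ht, ht]
    push_cast
    rw [map_mul, map_mul]
    ring
  have hz : ∀ n : ℕ, ¬ IsUnit ((n : ℕ) : ZMod (p ^ m)) → χ ((n : ℕ) : ZMod (p ^ ν)) = 0 := by
    intro n hn
    apply chi_zero_of
    intro h1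
    apply hn
    rw [ZMod.isUnit_iff_coprime]
    exact Nat.Coprime.coprime_dvd_right (pow_dvd_pow p hmν) h1
  have key := orthG S (fun i => ((π i : ℕ) : ZMod (p ^ m))) a (by
    intro i _ hu
    simp only [a]
    rw [hz _ hu, zero_mul])
  have hsplit : ∑ i ∈ S, ∑ j ∈ S, (if ((π i : ℕ) : ZMod (p ^ m)) = ((π j : ℕ) : ZMod (p ^ m)) then
      a i * (starRingEnd ℂ) (a j) else 0) =
      ∑ i ∈ S, ∑ j ∈ S, (if π i = π j then a i * (starRingEnd ℂ) (a j) else 0) +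
      ∑ i ∈ S, ∑ j ∈ S, (if ((π i : ℕ) : ZMod (p ^ m)) = ((π j : ℕ) : ZMod (p ^ m)) ∧ π i ≠ π j then
        a i * (starRingEnd ℂ) (a j) else 0) := by
    rw [← sum_add_distrib]
    refine sum_congr rfl fun i _ => ?_
    rw [← sum_add_distrib]
    refine sum_congr rfl fun j _ => ?_
    by_cases h1 : π i = π j
    · rw [if_pos h1, if_pos (by rw [h1]), if_neg (fun h2 => h2.2 h1), add_zero]
    · rw [if_neg h1, zero_add]
      by_cases h2 : ((π i : ℕ) : ZMod (p ^ m)) = ((π j : ℕ) : ZMod (p ^ m))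
      · rw [if_pos h2, if_pos ⟨h2, h1⟩]
      · rw [if_neg h2, if_neg (fun h3 => h2 h3.1)]
  have hD : ‖∑ i ∈ S, ∑ j ∈ S, (if π i = π j then a i * (starRingEnd ℂ) (a j) else 0)‖ ≤
      ∑ n ∈ Icc 1 (⌊Y⌋₊ * N), DD Y h n ^ 2 / n := by
    rw [diagG S (Icc 1 (⌊Y⌋₊ * N)) π (by
      intro i hi
      simp only [S, mem_product, mem_Icc] at hi
      simp only [π, mem_Icc]
      exact ⟨Nat.mul_pos hi.1.1 hi.2.1, Nat.mul_le_mul hi.1.2 hi.2.2⟩) a]
    refine (norm_sum_le _ _).trans (sum_le_sum fun k hk => ?_)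
    have e1 : ∑ i ∈ S, (if π i = k then a i else 0) =
        χ (k : ZMod (p ^ ν)) * ((DD Y h k / Real.sqrt k : ℝ) : ℂ) := by
      rw [← fac hY h N hh hk]
      simp only [S, sum_product]
      rw [Complex.ofReal_sum, mul_sum]
      refine sum_congr rfl fun l _ => ?_
      rw [Complex.ofReal_sum, mul_sum]
      refine sum_congr rfl fun n _ => ?_
      simp only [π, a, c, g]
      by_cases h1 : l * n = k
      · rw [if_pos h1, if_pos h1, h1]
      · rw [if_neg h1, if_neg h1]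
        simp
    rw [e1, norm_mul, Complex.norm_conj, norm_mul, Complex.norm_real, Real.norm_eq_abs]
    have h1 : ‖χ (k : ZMod (p ^ ν))‖ ≤ 1 := DirichletCharacter.norm_le_one χ _
    have h2 : 0 ≤ ‖χ (k : ZMod (p ^ ν))‖ := norm_nonneg _
    have h3 : |DD Y h k / Real.sqrt k| * |DD Y h k / Real.sqrt k| = DD Y h k ^ 2 / k := by
      rw [abs_mul_abs_self, div_mul_div_comm, Real.mul_self_sqrt (by positivity)]
      ring
    calc ‖χ (k : ZMod (p ^ ν))‖ * |DD Y h k / Real.sqrt k| *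
          (‖χ (k : ZMod (p ^ ν))‖ * |DD Y h k / Real.sqrt k|)
        = (‖χ (k : ZMod (p ^ ν))‖ * ‖χ (k : ZMod (p ^ ν))‖) *
          (|DD Y h k / Real.sqrt k| * |DD Y h k / Real.sqrt k|) := by ring
      _ ≤ 1 * (|DD Y h k / Real.sqrt k| * |DD Y h k / Real.sqrt k|) := by
          apply mul_le_mul_of_nonneg_right
          · nlinarith
          · positivity
      _ = DD Y h k ^ 2 / k := by rw [one_mul, h3]
  have hR : ‖∑ i ∈ S, ∑ j ∈ S, (if ((π i : ℕ) : ZMod (p ^ m)) = ((π j : ℕ) : ZMod (p ^ m)) ∧ π i ≠ π j then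
      a i * (starRingEnd ℂ) (a j) else 0)‖ ≤ 4 * Y * E := by
    have e : ∑ i ∈ S, ∑ j ∈ S, (if ((π i : ℕ) : ZMod (p ^ m)) = ((π j : ℕ) : ZMod (p ^ m)) ∧ π i ≠ π j
        then a i * (starRingEnd ℂ) (a j) else 0) =
        ∑ l₁ ∈ Icc 1 ⌊Y⌋₊, ∑ l₂ ∈ Icc 1 ⌊Y⌋₊, ((c l₁ * c l₂ : ℝ) : ℂ) * OD χ m h N l₁ l₂ := by
      simp only [S, sum_product]
      refine sum_congr rfl fun l₁ _ => ?_
      rw [sum_comm]
      refine sum_congr rfl fun l₂ _ => ?_
      unfold OD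
      rw [mul_sum]
      refine sum_congr rfl fun n₁ _ => ?_
      rw [mul_sum]
      refine sum_congr rfl fun n₂ _ => ?_
      have hc : ((l₁ * n₁ : ℕ) : ZMod (p ^ m)) = ((l₂ * n₂ : ℕ) : ZMod (p ^ m)) ↔
          ((p ^ m : ℕ) : ℤ) ∣ (l₁ : ℤ) * n₁ - l₂ * n₂ := by
        have h1 := ZMod.intCast_eq_intCast_iff_dvd_sub (((l₂ * n₂ : ℕ)) : ℤ) (((l₁ * n₁ : ℕ)) : ℤ) (p ^ m)
        rw [Int.cast_natCast, Int.cast_natCast] at h1
        rw [eq_comm, h1]
        push_cast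
        rfl
      simp only [π, a, g]
      by_cases h1 : ((p ^ m : ℕ) : ℤ) ∣ (l₁ : ℤ) * n₁ - l₂ * n₂ ∧ l₁ * n₁ ≠ l₂ * n₂
      · rw [if_pos ⟨hc.2 h1.1, h1.2⟩, if_pos h1, map_mul, Complex.conj_ofReal]
        push_cast
        ring
      · rw [if_neg (fun h2 => h1 ⟨hc.1 h2.1, h2.2⟩), if_neg h1, mul_zero]
    rw [e]
    have hc1 : ∀ l : ℕ, |c l| ≤ 1 / Real.sqrt l := by
      intro l
      simp only [c]
      rw [abs_div, abs_mul, abs_of_nonneg (Real.sqrt_nonneg _), abs_of_nonneg (PL_nonneg Y l)]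
      apply div_le_div_of_nonneg_right _ (Real.sqrt_nonneg _)
      calc |mu l| * PL Y l ≤ 1 * 1 :=
            mul_le_mul (mu_abs l) (PL_le_one hY l) (PL_nonneg Y l) (by norm_num)
        _ = 1 := by norm_num
    have hfl : ∀ l : ℕ, l ∈ Icc 1 ⌊Y⌋₊ → 1 ≤ l ∧ (l : ℝ) ≤ Y := by
      intro l hl
      rw [mem_Icc] at hl
      exact ⟨hl.1, (Nat.le_floor_iff (by linarith)).1 hl.2⟩
    have hb : ∀ l₁ ∈ Icc 1 ⌊Y⌋₊, ∀ l₂ ∈ Icc 1 ⌊Y⌋₊, ‖OD χ m h N l₁ l₂‖ ≤ E := by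
      intro l₁ h1 l₂ h2
      by_cases h3 : l₁.Coprime p ∧ l₂.Coprime p
      · exact hOD l₁ l₂ (hfl l₁ h1).1 (hfl l₂ h2).1 (hfl l₁ h1).2 (hfl l₂ h2).2 h3.1 h3.2
      · rw [OD_zero (le_trans hm hmν) χ h N l₁ l₂ h3, norm_zero]
        exact hE
    have hs : 0 ≤ ∑ l ∈ Icc 1 ⌊Y⌋₊, 1 / Real.sqrt (l : ℝ) := sum_nonneg fun l _ => by positivity
    calc ‖∑ l₁ ∈ Icc 1 ⌊Y⌋₊, ∑ l₂ ∈ Icc 1 ⌊Y⌋₊, ((c l₁ * c l₂ : ℝ) : ℂ) * OD χ m h N l₁ l₂‖
        ≤ ∑ l₁ ∈ Icc 1 ⌊Y⌋₊, ∑ l₂ ∈ Icc 1 ⌊Y⌋₊,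
            (1 / Real.sqrt (l₁ : ℝ)) * (1 / Real.sqrt (l₂ : ℝ)) * E := by
          refine (norm_sum_le _ _).trans (sum_le_sum fun l₁ h1 => ?_)
          refine (norm_sum_le _ _).trans (sum_le_sum fun l₂ h2 => ?_)
          rw [norm_mul, Complex.norm_real, Real.norm_eq_abs, abs_mul]
          apply mul_le_mul _ (hb l₁ h1 l₂ h2) (norm_nonneg _) (by positivity)
          exact mul_le_mul (hc1 l₁) (hc1 l₂) (abs_nonneg _) (by positivity)
      _ = (∑ l ∈ Icc 1 ⌊Y⌋₊, 1 / Real.sqrt (l : ℝ)) * (∑ l ∈ Icc 1 ⌊Y⌋₊, 1 / Real.sqrt (l : ℝ)) * E := by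
          rw [sum_mul_sum, sum_mul]
          refine sum_congr rfl fun l₁ _ => ?_
          rw [sum_mul]
      _ ≤ (2 * Real.sqrt ⌊Y⌋₊) * (2 * Real.sqrt ⌊Y⌋₊) * E := by
          apply mul_le_mul_of_nonneg_right _ hE
          exact mul_le_mul (sum_inv_sqrt _) (sum_inv_sqrt _) hs (by positivity)
      _ = 4 * (⌊Y⌋₊ : ℝ) * E := by
          have := Real.mul_self_sqrt (by positivity : (0 : ℝ) ≤ (⌊Y⌋₊ : ℝ))
          linear_combination 4 * E * this
      _ ≤ 4 * Y * E := by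
          apply mul_le_mul_of_nonneg_right _ hE
          have := Nat.floor_le (by linarith : (0 : ℝ) ≤ Y)
          linarith
  have h0 : 0 ≤ ∑ θ : DirichletCharacter ℂ (p ^ m),
      ‖∑ i ∈ S, θ ((π i : ℕ) : ZMod (p ^ m)) * a i‖ ^ 2 :=
    sum_nonneg fun θ _ => by positivity
  have h1 : ∑ θ : DirichletCharacter ℂ (p ^ m), ‖∑ i ∈ S, θ ((π i : ℕ) : ZMod (p ^ m)) * a i‖ ^ 2 =
      ‖((∑ θ : DirichletCharacter ℂ (p ^ m),
        ‖∑ i ∈ S, θ ((π i : ℕ) : ZMod (p ^ m)) * a i‖ ^ 2 : ℝ) : ℂ)‖ := by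
    rw [Complex.norm_real, Real.norm_eq_abs, abs_of_nonneg h0]
  simp_rw [hMA]
  rw [h1, key, norm_mul, Complex.norm_natCast]
  rw [hsplit]
  have h2 : (Nat.totient (p ^ m) : ℝ) ≤ (p : ℝ) ^ m := by exact_mod_cast Nat.totient_le (p ^ m)
  apply mul_le_mul h2 _ (norm_nonneg _) (by positivity)
  exact (norm_add_le _ _).trans (add_le_add hD hR)

end Pool.Agent.Run7.h163.PV
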