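import Pool.Agent.Run7.h343.PV.Iface2

/-!
# Corrected statement of the piece SM of project PV

`S_SM` of `Iface2.lean` is false at `Y = 1`: there `log Y = 0`, so `PL 1 l = 1` for every `l`. `S_SM1` is
the same statement with `1 < Y`.
-/

set_option autoImplicit false

namespace Pool.Agent.Run7.h163.PV

open Finset Complex Pool.Agent.Run7.h343.PV

/-- `S_SM` with `1 < Y` in the place of `1 ≤ Y` -/
def S_SM1 : Prop := ∀ (p ν m : ℕ) (hmν : m ≤ ν) [NeZero (p ^ m)] (χ : DirichletCharacter ℂ (p ^ ν))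
  (Y E : ℝ) (h : ℝ → ℝ) (N : ℕ), p.Prime → 1 ≤ m → 1 < Y → 0 ≤ E → (∀ t, Real.log N < t → h t = 0) →
  (∀ l₁ l₂ : ℕ, 1 ≤ l₁ → 1 ≤ l₂ → (l₁ : ℝ) ≤ Y → (l₂ : ℝ) ≤ Y → l₁.Coprime p → l₂.Coprime p →
    ‖OD χ m h N l₁ l₂‖ ≤ E) →
  ∑ θ : DirichletCharacter ℂ (p ^ m), ‖Mol Y (tw hmν χ θ) * AA N h (tw hmν χ θ)‖ ^ 2 ≤
    (p : ℝ) ^ m * (∑ n ∈ Icc 1 (⌊Y⌋₊ * N), DD Y h n ^ 2 / n + 4 * Y * E)

end Pool.Agent.Run7.h163.PV
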